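import Pool.Agent.H32.LP.Gen

/-!
# Every rational `r > 1` is `(P ^ 2 - 1) / (Q - 1)` for almost primes `P`, `Q` with large prime factors

Let `r = d / a` with `d > a > 0`. For `m ≥ 1` put `P = d m + 1` and `Q = a d m ^ 2 + 2 a m + 1`; then
`(P ^ 2 - 1) / (Q - 1) = r`. Let `Rough d a R X` be the set of the `m` in `(X, 2 X]` for which neither `P` nor `Q` has a
prime factor up to `X ^ (1 / R)`. It has at least `c X / log ^ 2 X` elements, and for these `P` has at most `R` and `Q` at
most `2 R` prime factors. For a positive proportion of these `m` the number `P` has a prime factor larger than `X ^ θ₁` and,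
simultaneously, `Q` has a prime factor larger than `X ^ θ₂`, if `θ₁ + θ₂ / 2 < 1`, `θ₁, θ₂ < 1`: for instance `θ₁ = 1 / 2`,
`θ₂ = 1 - ε`.

Proof: the moments of order `j` of the logarithms of the prime factors up to `X ^ θ`, `j θ < 1`, over the sifted set, from
the fundamental lemma of the sieve in progressions modulo products of `j` primes and the prime ideal theorem.
-/

set_option autoImplicit false

namespace Pool.Agent.Results.MP_d3dd4c_nt.LargePrimeFactors

open Filter Finset Polynomial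
open Pool.Agent.H32.LP Pool.Agent.W123.RU.Poly

/-- The number `P = d m + 1`. -/
def P (d m : ℕ) : ℕ := d * m + 1

/-- The number `Q = a d m ^ 2 + 2 a m + 1`. -/
def Q (d a m : ℕ) : ℕ := a * d * m ^ 2 + 2 * a * m + 1

/-- The `m` in `(X, 2 X]` such that no prime `p ≤ X ^ (1 / R)` divides `P` or `Q`. -/
def Rough (d a R X : ℕ) : Set ℕ :=
  {m | X < m ∧ m ≤ 2 * X ∧
    ∀ p : ℕ, p.Prime → (p : ℝ) ≤ (X : ℝ) ^ (1 / (R : ℝ)) → ¬ p ∣ P d m ∧ ¬ p ∣ Q d a m}

/-- The product of the `θ / (g - t θ)` for `0 ≤ t < j`; it is `θ / g` for `j = 1`. -/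
noncomputable def bound (g : ℕ) (θ : ℝ) (j : ℕ) : ℝ := ∏ t ∈ range j, θ / (g - t * θ)

/-- the two polynomials -/
noncomputable def pol (d a : ℕ) : Bool → ℤ[X]
  | false => C (d : ℤ) * X + C 1
  | true => C ((a * d : ℕ) : ℤ) * X ^ 2 + C ((2 * a : ℕ) : ℤ) * X + C 1

lemma eval_false (d a m : ℕ) : (pol d a false).eval (m : ℤ) = ((P d m : ℕ) : ℤ) := by
  simp only [pol, eval_add, eval_mul, eval_C, eval_X, P]
  push_cast
  ring

lemma eval_true (d a m : ℕ) : (pol d a true).eval (m : ℤ) = ((Q d a m : ℕ) : ℤ) := by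
  simp only [pol, eval_add, eval_mul, eval_C, eval_X, eval_pow, Q]
  push_cast
  ring

lemma deg_false (d a : ℕ) (hd : 0 < d) : (pol d a false).natDegree = 1 := by
  simp only [pol]
  exact natDegree_linear (by exact_mod_cast hd.ne')

lemma deg_true (d a : ℕ) (ha : 0 < a) (hd : 0 < d) : (pol d a true).natDegree = 2 := by
  simp only [pol]
  exact natDegree_quadratic (by exact_mod_cast (Nat.mul_pos ha hd).ne')

lemma irr_true (d a : ℕ) (ha : 0 < a) (had : a < d) : Irreducible (pol d a true) := by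
  have hd : 0 < d := by omega
  have hprim : (pol d a true).IsPrimitive := by
    rw [isPrimitive_iff_isUnit_of_C_dvd]
    intro r hr
    rw [C_dvd_iff_dvd_coeff] at hr
    have h := hr 0
    simp only [pol] at h
    rw [coeff_zero_eq_eval_zero] at h
    simp at h
    exact isUnit_of_dvd_one (by simpa using h)
  rw [Polynomial.IsPrimitive.Int.irreducible_iff_irreducible_map_cast hprim]
  have hdeg : ((pol d a true).map (Int.castRingHom ℚ)).natDegree = 2 := by
    rw [natDegree_map_eq_of_injective (RingHom.injective_int _), deg_true d a ha hd]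
  rw [irreducible_iff_roots_eq_zero_of_degree_le_three (by rw [hdeg]) (by rw [hdeg]; norm_num)]
  rw [Multiset.eq_zero_iff_forall_notMem]
  intro x hx
  have h1 := (mem_roots'.1 hx).2
  rw [IsRoot.def] at h1
  simp only [pol, Polynomial.map_add, Polynomial.map_mul, map_C, map_X, Polynomial.map_pow, eval_add, eval_mul,
    eval_C, eval_X, eval_pow] at h1
  push_cast at h1
  simp at h1
  have haq : (0 : ℚ) < a := by exact_mod_cast ha
  have hdq : (a : ℚ) < d := by exact_mod_cast had
  have e : (d : ℚ) * (a * d * x ^ 2 + 2 * a * x + 1) = a * (d * x + 1) ^ 2 + (d - a) := by ring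
  rw [h1, mul_zero] at e
  have h2 : 0 ≤ (a : ℚ) * (d * x + 1) ^ 2 := by positivity
  linarith

lemma sys (d a : ℕ) (ha : 0 < a) (had : a < d) : Sys (pol d a) where
  irr i := by
    cases i
    · exact irreducible_C_mul_X_add_C (by exact_mod_cast (by omega : d ≠ 0)) (IsCoprime.isRelPrime ⟨0, 1, by ring⟩)
    · exact irr_true d a ha had
  deg i := by
    cases i
    · rw [deg_false d a (by omega)]
      norm_num
    · rw [deg_true d a ha (by omega)]
      norm_num
  lead i := by
    cases i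
    · simp only [pol]
      rw [leadingCoeff_linear (by exact_mod_cast (by omega : d ≠ 0))]
      exact_mod_cast (by omega : 0 < d)
    · simp only [pol]
      rw [leadingCoeff_quadratic (by exact_mod_cast (Nat.mul_pos ha (by omega : 0 < d)).ne')]
      exact_mod_cast (Nat.mul_pos ha (by omega : 0 < d))
  inj := by
    intro i i' h
    have h1 := congrArg natDegree h
    cases i <;> cases i'
    · rfl
    · rw [deg_false d a (by omega), deg_true d a ha (by omega)] at h1
      omega
    · rw [deg_false d a (by omega), deg_true d a ha (by omega)] at h1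
      omega
    · rfl
  adm p hp := by
    refine ⟨0, fun i hi => ?_⟩
    have h : (p : ℤ) ∣ 1 := by
      cases i
      · rw [eval_false] at hi
        simpa [P] using hi
      · rw [eval_true] at hi
        simpa [Q] using hi
    have h3 : p ∣ 1 := by exact_mod_cast h
    exact hp.one_lt.ne' (Nat.dvd_one.1 h3)

lemma rough_eq (d a R X : ℕ) : Rough d a R X = RoughG (pol d a) R X := by
  ext m
  unfold Rough RoughG
  rw [Set.mem_ofPred_eq, Set.mem_ofPred_eq]
  refine and_congr_right fun _ => and_congr_right fun _ => ?_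
  constructor
  · intro h i p hp hpX hd
    cases i
    · rw [eval_false] at hd
      exact (h p hp hpX).1 (by exact_mod_cast hd)
    · rw [eval_true] at hd
      exact (h p hp hpX).2 (by exact_mod_cast hd)
  · intro h p hp hpX
    refine ⟨fun hd => h false p hp hpX ?_, fun hd => h true p hp hpX ?_⟩
    · rw [eval_false]
      exact_mod_cast hd
    · rw [eval_true]
      exact_mod_cast hd

/-- **Every rational `d / a > 1` is `(P ^ 2 - 1) / (Q - 1)` for almost primes `P`, `Q` with large prime factors.** -/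
theorem result (d a : ℕ) (ha : 0 < a) (had : a < d)
    (θ₁ θ₂ : ℝ) (j₁ j₂ : ℕ) (h₁ : 0 < θ₁) (h₂ : 0 < θ₂) (hj₁ : 1 ≤ j₁) (hj₂ : 1 ≤ j₂)
    (hθ₁ : j₁ * θ₁ < 1) (hθ₂ : j₂ * θ₂ < 1) (κ : ℝ) (hκ : κ < 1 - bound 1 θ₁ j₁ - bound 2 θ₂ j₂) :
    (∀ m : ℕ, 0 < m → (d : ℚ) / a = (((P d m : ℕ) : ℚ) ^ 2 - 1) / (((Q d a m : ℕ) : ℚ) - 1)) ∧
    ∃ R₀ : ℕ, 1 ≤ R₀ ∧ ∀ R : ℕ, R₀ ≤ R → ∃ c : ℝ, 0 < c ∧ ∀ᶠ X : ℕ in atTop,
      c * X / Real.log X ^ 2 ≤ ((Rough d a R X).ncard : ℝ) ∧
      (∀ m ∈ Rough d a R X, (P d m).primeFactorsList.length ≤ R ∧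
        (Q d a m).primeFactorsList.length ≤ 2 * R) ∧
      κ * ((Rough d a R X).ncard : ℝ) ≤
        ({m | m ∈ Rough d a R X ∧ (∃ p : ℕ, p.Prime ∧ p ∣ P d m ∧ (X : ℝ) ^ θ₁ < (p : ℝ)) ∧
          ∃ p : ℕ, p.Prime ∧ p ∣ Q d a m ∧ (X : ℝ) ^ θ₂ < (p : ℝ)}.ncard : ℝ) := by
  classical
  have hd : 0 < d := by omega
  constructor
  · intro m hm
    have h1 : (0 : ℚ) < a := by exact_mod_cast ha
    have h2 : (0 : ℚ) < d := by exact_mod_cast hd
    have h3 : (0 : ℚ) < m := by exact_mod_cast hm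
    unfold P Q
    push_cast
    have h4 : (0 : ℚ) < a * d * m ^ 2 + 2 * a * m + 1 - 1 := by
      have : (0 : ℚ) < a * d * m ^ 2 + 2 * a * m := by positivity
      linarith
    rw [div_eq_div_iff h1.ne' h4.ne']
    ring
  obtain ⟨R₀, hR₀, h⟩ := gen (pol d a) (sys d a ha had) (fun i => if i then θ₂ else θ₁)
    (fun i => if i then j₂ else j₁)
    (by intro i; cases i <;> simp [h₁, h₂, hj₁, hj₂, hθ₁, hθ₂]) κ (by
      refine lt_of_lt_of_le hκ (le_of_eq ?_)
      rw [Fintype.sum_bool]
      simp only [if_true, Bool.false_eq_true, if_false]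
      rw [deg_true d a ha hd, deg_false d a hd]
      simp only [beta, bound]
      ring)
  refine ⟨R₀, hR₀, fun R hR => ?_⟩
  obtain ⟨b, hb, hX⟩ := h R hR
  refine ⟨b, hb, ?_⟩
  filter_upwards [hX] with X hX
  obtain ⟨h1, h2, h3⟩ := hX
  rw [Fintype.card_bool] at h1
  refine ⟨?_, ?_, ?_⟩
  · rw [rough_eq]
    exact h1
  · intro m hm
    rw [rough_eq] at hm
    have h4 := h2 m hm false
    have h5 := h2 m hm true
    rw [eval_false, deg_false d a hd, one_mul, Int.natAbs_natCast] at h4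
    rw [eval_true, deg_true d a ha hd, Int.natAbs_natCast] at h5
    exact ⟨h4, h5⟩
  · have e : {m | m ∈ Rough d a R X ∧ (∃ p : ℕ, p.Prime ∧ p ∣ P d m ∧ (X : ℝ) ^ θ₁ < (p : ℝ)) ∧
          ∃ p : ℕ, p.Prime ∧ p ∣ Q d a m ∧ (X : ℝ) ^ θ₂ < (p : ℝ)} =
        {m | m ∈ RoughG (pol d a) R X ∧ ∀ i, ∃ p : ℕ, p.Prime ∧
          (p : ℤ) ∣ (pol d a i).eval (m : ℤ) ∧ (X : ℝ) ^ (if i then θ₂ else θ₁) < (p : ℝ)} := by
      ext m
      rw [Set.mem_ofPred_eq, Set.mem_ofPred_eq, rough_eq]
      refine and_congr_right fun _ => ?_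
      constructor
      · rintro ⟨⟨p, hp, hpd, hpX⟩, q, hq, hqd, hqX⟩ i
        cases i
        · refine ⟨p, hp, ?_, by simpa using hpX⟩
          rw [eval_false]
          exact_mod_cast hpd
        · refine ⟨q, hq, ?_, by simpa using hqX⟩
          rw [eval_true]
          exact_mod_cast hqd
      · intro g
        obtain ⟨p, hp, hpd, hpX⟩ := g false
        obtain ⟨q, hq, hqd, hqX⟩ := g true
        rw [eval_false] at hpd
        rw [eval_true] at hqd
        exact ⟨⟨p, hp, by exact_mod_cast hpd, by simpa using hpX⟩, q, hq, by exact_mod_cast hqd,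
          by simpa using hqX⟩
    rw [e, rough_eq]
    exact h3

end Pool.Agent.Results.MP_d3dd4c_nt.LargePrimeFactors
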